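import Mathlib

set_option autoImplicit false

namespace Pool.Agent.Results.MP_1ed8ce_co.Blow

open Finset

/-- least number of edges whose deletion leaves a bipartite graph -/
noncomputable def gamma2 {n : ℕ} (G : SimpleGraph (Fin n)) : ℕ :=
  sInf {m | ∃ F : Finset (Sym2 (Fin n)), F.card = m ∧ (G.deleteEdges F).Colorable 2}

/-- `G` is connected and consists of three blocks: a balanced complete bipartite graph on
`n - (2k+b) + 2` vertices, a clique on `2k` vertices and a clique on `b` vertices -/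
def IsT (k b : ℕ) {n : ℕ} (G : SimpleGraph (Fin n)) : Prop :=
  G.Connected ∧ ∃ X Y P Q : Finset (Fin n), Disjoint X Y ∧
    X.card = (n - (2 * k + b) + 2) / 2 ∧ Y.card = (n - (2 * k + b) + 3) / 2 ∧
    P.card = 2 * k ∧ Q.card = b ∧ X ∪ Y ∪ P ∪ Q = univ ∧
    ((X ∪ Y) ∩ P).card ≤ 1 ∧ ((X ∪ Y) ∩ Q).card ≤ 1 ∧ (P ∩ Q).card ≤ 1 ∧
    ∀ u v, G.Adj u v ↔ (u ∈ X ∧ v ∈ Y) ∨ (u ∈ Y ∧ v ∈ X) ∨ (u ≠ v ∧ u ∈ P ∧ v ∈ P) ∨
      (u ≠ v ∧ u ∈ Q ∧ v ∈ Q)

abbrev W (s : ℕ) := (Fin 5 × Fin 2) ⊕ (Fin s ⊕ Fin s)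

def ph {s : ℕ} : W s → ZMod 7
  | Sum.inl p => ![2, 3, 4, 5, 6] p.1
  | Sum.inr (Sum.inl _) => 0
  | Sum.inr (Sum.inr _) => 1

def R (a b : ZMod 7) : Prop := a + 1 = b ∨ b + 1 = a

instance : DecidableRel R := fun a b => by unfold R; infer_instance

noncomputable def E (s : ℕ) : W s ≃ Fin (2 * s + 10) := Fintype.equivOfCardEq (by simp; ring)

noncomputable def G (s : ℕ) : SimpleGraph (Fin (2 * s + 10)) where
  Adj u v := R (ph ((E s).symm u)) (ph ((E s).symm v))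
  symm := ⟨fun _ _ h => h.symm⟩
  loopless := ⟨fun _ h => by
    have : ∀ a : ZMod 7, ¬ R a a := by decide
    exact this _ h⟩

lemma no5 : ∀ a b : ZMod 7, R a b → ∀ c, R b c → ∀ d, R c d → ∀ e, R d e → ¬ R e a := by
  decide +kernel

lemma no3 : ∀ a b c : ZMod 7, R a b → R b c → ¬ R c a := by decide +kernel

lemma edges (s : ℕ) : Nat.card (G s).edgeSet = (s + 2) ^ 2 + 12 := by
  classical
  have h := (G s).sum_degrees_eq_twice_card_edges
  rw [Nat.card_eq_fintype_card, ← SimpleGraph.edgeFinset_card]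
  have hd : ∀ u, (G s).degree u = ∑ v : W s, if R (ph ((E s).symm u)) (ph v) then 1 else 0 := by
    intro u
    rw [← SimpleGraph.card_neighborFinset_eq_degree, SimpleGraph.neighborFinset_eq_filter,
      card_filter, ← Equiv.sum_comp (E s)]
    apply sum_congr rfl
    intro v _
    simp [G]
  simp only [hd] at h
  rw [← Equiv.sum_comp (E s)] at h
  simp only [Equiv.symm_apply_apply, Fintype.sum_sum_type, Fintype.sum_prod_type, ph,
    Fin.sum_univ_five] at h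
  simp +decide at h
  nlinarith

lemma gamma (s : ℕ) (hs : 2 ≤ s) : 4 ≤ gamma2 (G s) := by
  classical
  unfold gamma2
  refine le_csInf ⟨_, univ, rfl, ?_⟩ ?_
  · refine ⟨SimpleGraph.Coloring.mk (fun _ => 0) ?_⟩
    intro u v h
    simp at h
  · rintro m ⟨F, rfl, ⟨C⟩⟩
    by_contra hlt
    push Not at hlt
    let x : Fin 7 → Fin 2 → W s := fun i j =>
      if h : i.1 < 5 then Sum.inl (⟨i.1, h⟩, j)
      else if i.1 = 5 then Sum.inr (Sum.inl ⟨j.1, by omega⟩) else Sum.inr (Sum.inr ⟨j.1, by omega⟩)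
    have hx : ∀ i j i' j', x i j = x i' j' → i = i' ∧ j = j' := by
      intro i j i' j' h
      fin_cases i <;> fin_cases i' <;> simp [x, Fin.ext_iff] at h ⊢ <;> exact h
    have hR : ∀ i j j', R (ph (x i j)) (ph (x (i + 1) j')) := by
      intro i j j'
      fin_cases i <;> simp [x, ph] <;> decide
    -- four edge-disjoint 7-cycles
    let c : Fin 4 → Fin 7 → Fin 2 :=
      ![![0, 0, 0, 0, 0, 0, 0], ![0, 1, 0, 1, 0, 1, 1], ![1, 0, 1, 0, 1, 0, 1],
        ![1, 1, 1, 1, 1, 1, 0]]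
    have hc : ∀ t t' i i', (i = i' ∧ c t i = c t' i' ∧ c t (i + 1) = c t' (i' + 1)) → t = t' := by
      decide
    have hmono : ∀ t : Fin 4, ∃ i, s(E s (x i (c t i)), E s (x (i + 1) (c t (i + 1)))) ∈ F := by
      intro t
      by_contra hn
      push Not at hn
      have h1 : ∀ i, C (E s (x i (c t i))) ≠ C (E s (x (i + 1) (c t (i + 1)))) := by
        intro i
        apply C.valid
        rw [SimpleGraph.deleteEdges_adj]
        exact ⟨by simpa [G] using hR i _ _, by simpa using hn i⟩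
      have key : ∀ a0 a1 a2 a3 a4 a5 a6 : Fin 2, a0 ≠ a1 → a1 ≠ a2 → a2 ≠ a3 → a3 ≠ a4 →
          a4 ≠ a5 → a5 ≠ a6 → a6 ≠ a0 → False := by
        simp only [ne_eq, Fin.ext_iff]; omega
      exact key _ _ _ _ _ _ _ (h1 0) (h1 1) (h1 2) (h1 3) (h1 4) (h1 5) (h1 6)
    choose f hf using hmono
    have := card_le_card_of_injOn (s := (univ : Finset (Fin 4))) (t := F)
      (fun t => s(E s (x (f t) (c t (f t))), E s (x (f t + 1) (c t (f t + 1)))))
      (fun t _ => hf t) (by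
        intro t _ t' _ h
        simp only [Sym2.eq_iff, EmbeddingLike.apply_eq_iff_eq] at h
        rcases h with ⟨h1, h2⟩ | ⟨h1, h2⟩
        · exact hc t t' _ _ ⟨(hx _ _ _ _ h1).1, (hx _ _ _ _ h1).2, (hx _ _ _ _ h2).2⟩
        · have a := (hx _ _ _ _ h1).1
          have b := (hx _ _ _ _ h2).1
          have : ∀ i j : Fin 7, i = j + 1 → i + 1 = j → False := by decide
          exact (this _ _ a b).elim)
    simp at this
    omega

theorem result : ¬ ∀ k b : ℕ, 2 ≤ k → 3 ≤ b → b ≤ 2 * k → ∃ n0 : ℕ, ∀ n : ℕ, n0 ≤ n →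
    ∀ G : SimpleGraph (Fin n),
      (¬ ∃ (v : Fin n) (w : G.Walk v v), w.IsCycle ∧ w.length = 2 * k + 1) →
      (n - (2 * k + b) + 2) ^ 2 / 4 + (2 * k).choose 2 + b.choose 2 ≤ Nat.card G.edgeSet →
      gamma2 G ≤ 2 * k.choose 2 + (b / 2).choose 2 + ((b + 1) / 2).choose 2 ∧
        (gamma2 G = 2 * k.choose 2 + (b / 2).choose 2 + ((b + 1) / 2).choose 2 ↔ IsT k b G) := by
  intro h
  obtain ⟨n0, h⟩ := h 2 4 le_rfl (by norm_num) le_rfl
  obtain ⟨h1, h2⟩ := h (2 * (n0 + 2) + 10) (by omega) (G (n0 + 2)) (by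
    rintro ⟨v, w, -, hw⟩
    match w, hw with
    | .cons h1 (.cons h2 (.cons h3 (.cons h4 (.cons h5 .nil)))), _ =>
      exact no5 _ _ h1 _ h2 _ h3 _ h4 h5) (by
    rw [edges]
    have e : 2 * (n0 + 2) + 10 - (2 * 2 + 4) + 2 = 2 * (n0 + 4) := by omega
    rw [e, mul_pow, show (2 : ℕ) ^ 2 = 4 from rfl, Nat.mul_div_cancel_left _ (by norm_num)]
    simp [Nat.choose])
  have h3 := gamma (n0 + 2) (by omega)
  have e : 2 * Nat.choose 2 2 + Nat.choose (4 / 2) 2 + Nat.choose ((4 + 1) / 2) 2 = 4 := by decide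
  rw [e] at h1 h2
  obtain ⟨-, X, Y, P, Q, -, -, -, hP, -, -, -, -, -, hadj⟩ := h2.1 (le_antisymm h1 h3)
  obtain ⟨a, b, c, ha, hb, hc, hab, hac, hbc⟩ := two_lt_card_iff.1 (by omega : 2 < P.card)
  exact no3 _ _ _ ((hadj a b).2 (by tauto)) ((hadj b c).2 (by tauto))
    ((hadj c a).2 (Or.inr (Or.inr (Or.inl ⟨hac.symm, hc, ha⟩))))

end Pool.Agent.Results.MP_1ed8ce_co.Blow
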